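import Mathlib

/-!
Weak-star convergent sequences of functionals as operators into `C(K)`, `K` infinite compact
Hausdorff.
-/

set_option autoImplicit false

open Filter Topology Set

namespace Pool.Agent.H55.WM

/-- The sequence `k` of functionals is the modulus of an operator into `F`. -/
def Enc (𝕜 : Type*) [RCLike 𝕜] (E F : Type*) [NormedAddCommGroup E] [NormedSpace 𝕜 E]
    [NormedAddCommGroup F] [NormedSpace 𝕜 F] : Prop :=
  ∀ (k : ℕ → StrongDual 𝕜 E) (f : StrongDual 𝕜 E), (∀ n, ‖k n‖ ≤ 1) →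
    (∀ x, Tendsto (fun n => k n x) atTop (𝓝 (f x))) →
    ∃ T : E →L[𝕜] F, ∀ x, IsLUB (Set.range fun n => ‖k n x‖) ‖T x‖

section

variable {𝕜 : Type*} [RCLike 𝕜] {K : Type*} [TopologicalSpace K] [CompactSpace K] [T2Space K]

/-- disjoint bumps -/
theorem exists_bumps (K : Type*) [TopologicalSpace K] [CompactSpace K] [T2Space K] [Infinite K] :
    ∃ (u : ℕ → C(K, ℝ)) (t : ℕ → K), (∀ n s, 0 ≤ u n s ∧ u n s ≤ 1) ∧ (∀ n, u n (t n) = 1) ∧
      ∀ m n s, m ≠ n → u m s ≠ 0 → u n s = 0 := by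
  obtain ⟨U, hinf, hopen, hdisj⟩ := exists_seq_infinite_isOpen_pairwise_disjoint K
  have h : ∀ n, ∃ (u : C(K, ℝ)) (t : K), (∀ s, 0 ≤ u s ∧ u s ≤ 1) ∧ u t = 1 ∧
      ∀ s, s ∉ U n → u s = 0 := by
    intro n
    obtain ⟨t, ht⟩ := (hinf n).nonempty
    obtain ⟨u, hu0, hu1, hu⟩ := exists_continuous_zero_one_of_isClosed (X := K)
      (hopen n).isClosed_compl (isClosed_singleton (x := t))
      (by
        rw [Set.disjoint_singleton_right]
        simpa using ht)
    refine ⟨u, t, fun s => ⟨(hu s).1, (hu s).2⟩, hu1 rfl, fun s hs => hu0 hs⟩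
  choose u t h1 h2 h3 using h
  refine ⟨u, t, h1, h2, fun m n s hmn hm => ?_⟩
  apply h3
  intro hsn
  have hsm : s ∈ U m := by
    by_contra hcon
    exact hm (h3 m s hcon)
  exact Set.disjoint_left.1 (hdisj hmn) hsm hsn

/-- the scalar valued bump -/
noncomputable def bump (u : C(K, ℝ)) : C(K, 𝕜) :=
  ⟨fun s => ((u s : ℝ) : 𝕜), RCLike.continuous_ofReal.comp u.continuous⟩

theorem norm_sum_bump_le {u : ℕ → C(K, ℝ)} (hu1 : ∀ n s, 0 ≤ u n s ∧ u n s ≤ 1)
    (hdis : ∀ m n s, m ≠ n → u m s ≠ 0 → u n s = 0) (c : ℕ → 𝕜) (t : Finset ℕ) {δ : ℝ}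
    (hδ : 0 ≤ δ) (hc : ∀ n ∈ t, ‖c n‖ ≤ δ) :
    ‖∑ n ∈ t, c n • (bump (u n) : C(K, 𝕜))‖ ≤ δ := by
  rw [ContinuousMap.norm_le _ hδ]
  intro s
  rw [ContinuousMap.sum_apply]
  by_cases h : ∃ m ∈ t, u m s ≠ 0
  · obtain ⟨m, hm, hms⟩ := h
    rw [Finset.sum_eq_single_of_mem m hm]
    · simp only [ContinuousMap.smul_apply, bump, ContinuousMap.coe_mk, smul_eq_mul, norm_mul,
        RCLike.norm_ofReal]
      rw [abs_of_nonneg (hu1 m s).1]
      calc ‖c m‖ * u m s ≤ δ * 1 := by
            apply mul_le_mul (hc m hm) (hu1 m s).2 (hu1 m s).1 hδ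
        _ = δ := mul_one _
    · intro n _ hnm
      have := hdis m n s (Ne.symm hnm) hms
      simp [bump, this]
  · push Not at h
    rw [Finset.sum_eq_zero]
    · simpa using hδ
    · intro n hn
      simp [bump, h n hn]

theorem summable_bump {u : ℕ → C(K, ℝ)} (hu1 : ∀ n s, 0 ≤ u n s ∧ u n s ≤ 1)
    (hdis : ∀ m n s, m ≠ n → u m s ≠ 0 → u n s = 0) (c : ℕ → 𝕜)
    (hc : Tendsto c atTop (𝓝 0)) : Summable fun n => c n • (bump (u n) : C(K, 𝕜)) := by
  rw [summable_iff_vanishing_norm]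
  intro ε hε
  have h1 : ∀ᶠ n in atTop, ‖c n‖ < ε / 2 := by
    have := hc.norm
    rw [norm_zero] at this
    exact this.eventually_lt_const (by linarith)
  obtain ⟨N, hN⟩ := eventually_atTop.1 h1
  refine ⟨Finset.range N, fun t ht => ?_⟩
  refine lt_of_le_of_lt (norm_sum_bump_le hu1 hdis c t (by linarith : 0 ≤ ε / 2) ?_)
    (by linarith)
  intro n hn
  apply (hN n _).le
  by_contra hcon
  exact Finset.disjoint_left.1 ht hn (Finset.mem_range.2 (not_le.1 hcon))

theorem enc_CK (𝕜 : Type*) [RCLike 𝕜] (E : Type*) [NormedAddCommGroup E] [NormedSpace 𝕜 E]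
    (K : Type*) [TopologicalSpace K] [CompactSpace K] [T2Space K] [Infinite K] :
    Enc 𝕜 E C(K, 𝕜) := by
  classical
  intro k f hk hkf
  obtain ⟨u, t, hu1, hut, hdis⟩ := exists_bumps K
  have hc : ∀ x, Tendsto (fun n => k n x - f x) atTop (𝓝 0) := by
    intro x
    have := (hkf x).sub_const (f x)
    simpa using this
  have hsum : ∀ x, Summable fun n => (k n x - f x) • (bump (u n) : C(K, 𝕜)) :=
    fun x => summable_bump hu1 hdis _ (hc x)
  let g : E → C(K, 𝕜) := fun x => f x • (1 : C(K, 𝕜)) + ∑' n, (k n x - f x) • (bump (u n) : C(K, 𝕜))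
  -- values
  have hval0 : ∀ x s, (∀ n, u n s = 0) → g x s = f x := by
    intro x s hs
    simp only [g, ContinuousMap.add_apply, ContinuousMap.smul_apply, ContinuousMap.one_apply,
      smul_eq_mul, mul_one]
    rw [← ContinuousMap.tsum_apply (hsum x)]
    simp [bump, hs]
  have hval1 : ∀ x s m, u m s ≠ 0 → g x s = f x + (k m x - f x) * ((u m s : ℝ) : 𝕜) := by
    intro x s m hms
    simp only [g, ContinuousMap.add_apply, ContinuousMap.smul_apply, ContinuousMap.one_apply,
      smul_eq_mul, mul_one]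
    rw [← ContinuousMap.tsum_apply (hsum x), tsum_eq_single m]
    · simp [bump]
    · intro n hnm
      have := hdis m n s (Ne.symm hnm) hms
      simp [bump, this]
  have hf_le : ∀ x b, (∀ n, ‖k n x‖ ≤ b) → ‖f x‖ ≤ b := fun x b hb =>
    le_of_tendsto' (hkf x).norm hb
  have hgb : ∀ x b, 0 ≤ b → (∀ n, ‖k n x‖ ≤ b) → ‖g x‖ ≤ b := by
    intro x b hb0 hb
    rw [ContinuousMap.norm_le _ hb0]
    intro s
    by_cases h : ∃ m, u m s ≠ 0
    · obtain ⟨m, hm⟩ := h
      rw [hval1 x s m hm]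
      have h1 : f x + (k m x - f x) * ((u m s : ℝ) : 𝕜)
          = ((1 - u m s : ℝ) : 𝕜) * f x + ((u m s : ℝ) : 𝕜) * k m x := by
        push_cast
        ring
      rw [h1]
      calc ‖((1 - u m s : ℝ) : 𝕜) * f x + ((u m s : ℝ) : 𝕜) * k m x‖
          ≤ ‖((1 - u m s : ℝ) : 𝕜) * f x‖ + ‖((u m s : ℝ) : 𝕜) * k m x‖ := norm_add_le _ _
        _ = (1 - u m s) * ‖f x‖ + u m s * ‖k m x‖ := by
            rw [norm_mul, norm_mul, RCLike.norm_ofReal, RCLike.norm_ofReal,
              abs_of_nonneg (hu1 m s).1, abs_of_nonneg (by linarith [(hu1 m s).2])]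
        _ ≤ (1 - u m s) * b + u m s * b := by
            apply add_le_add
            · exact mul_le_mul_of_nonneg_left (hf_le x b hb) (by linarith [(hu1 m s).2])
            · exact mul_le_mul_of_nonneg_left (hb m) (hu1 m s).1
        _ = b := by ring
    · push Not at h
      rw [hval0 x s h]
      exact hf_le x b hb
  have hkx : ∀ n x, ‖k n x‖ ≤ ‖x‖ := fun n x => by
    calc ‖k n x‖ ≤ ‖k n‖ * ‖x‖ := (k n).le_opNorm x
      _ ≤ 1 * ‖x‖ := by gcongr; exact hk n
      _ = ‖x‖ := one_mul _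
  let L : E →ₗ[𝕜] C(K, 𝕜) :=
    { toFun := g
      map_add' := by
        intro x y
        have h1 : (fun n => (k n (x + y) - f (x + y)) • (bump (u n) : C(K, 𝕜)))
            = fun n => (k n x - f x) • (bump (u n) : C(K, 𝕜))
              + (k n y - f y) • (bump (u n) : C(K, 𝕜)) := by
          funext n
          rw [map_add, map_add, ← add_smul]
          congr 1
          ring
        simp only [g]
        rw [h1, (hsum x).tsum_add (hsum y), map_add, add_smul]
        abel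
      map_smul' := by
        intro c x
        have h1 : (fun n => (k n (c • x) - f (c • x)) • (bump (u n) : C(K, 𝕜)))
            = fun n => c • ((k n x - f x) • (bump (u n) : C(K, 𝕜))) := by
          funext n
          rw [map_smul, map_smul, smul_smul, smul_eq_mul, smul_eq_mul]
          congr 1
          ring
        simp only [g, RingHom.id_apply]
        rw [h1, (hsum x).tsum_const_smul c, map_smul, smul_add, smul_smul, smul_eq_mul] }
  refine ⟨L.mkContinuous 1 (fun x => ?_), fun x => ?_⟩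
  · rw [one_mul]
    exact hgb x ‖x‖ (norm_nonneg x) (fun n => hkx n x)
  · constructor
    · rintro _ ⟨n, rfl⟩
      have h1 : g x (t n) = k n x := by
        rw [hval1 x (t n) n (by rw [hut]; norm_num), hut]
        simp
      have h2 : ‖g x (t n)‖ ≤ ‖g x‖ := ContinuousMap.norm_coe_le_norm (g x) (t n)
      rw [h1] at h2
      exact h2
    · intro b hb
      have hb' : ∀ n, ‖k n x‖ ≤ b := fun n => hb ⟨n, rfl⟩
      exact hgb x b ((norm_nonneg _).trans (hb' 0)) hb'

end

end Pool.Agent.H55.WM
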